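import Mathlib
import Pool.Agent.Helper934.PlankDefs
import Pool.Agent.Helper934.PlankMain

/-!
Multiple plank coverings: the asymptotic behaviour of `c_K(k)` for every convex body in the plane
and in three dimensional space.
-/

namespace Pool.Agent.Results.MP_4043ba_gt.PlankAsymptotics

open Filter Topology Pool.Agent.Helper934.PlankDefs Pool.Agent.Helper934.PlankMain

/-- For every convex body `K` in dimension two or three, with inradius `r` and minimal width `w`,
`(2 r / w) k ≤ c_K(k) ≤ (2 r / w) k + C` for all `k ≥ 1`, with `C` depending only on `K`, and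
hence `c_K(k) / k → 2 r / w`. -/
theorem result (d : ℕ) (hd : d = 2 ∨ d = 3) (K : Set (EuclideanSpace ℝ (Fin d)))
    (hK : IsConvexBody K) :
    (∃ C : ℝ, ∀ k : ℕ, 1 ≤ k →
      2 * inradius K / minWidth K * k ≤ coverConst K k ∧
      coverConst K k ≤ 2 * inradius K / minWidth K * k + C) ∧
    Tendsto (fun k : ℕ => coverConst K k / k) atTop (𝓝 (2 * inradius K / minWidth K)) := by
  obtain ⟨C, hC⟩ := coverConst_upper (by omega) hK
  have h1 : ∀ k : ℕ, 1 ≤ k → 2 * inradius K / minWidth K * k ≤ coverConst K k :=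
    fun k _ => coverConst_ge hd hK k
  exact ⟨⟨C, fun k hk => ⟨h1 k hk, hC k hk⟩⟩, tendsto_of_bounds _ _ C h1 hC⟩

end Pool.Agent.Results.MP_4043ba_gt.PlankAsymptotics
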