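import Mathlib
import Pool.Agent.Helper934.PlankDefs
import Pool.Agent.Helper934.PlankMain
import Pool.Agent.Helper934.PlankExtremal

/-!
Multiple plank coverings: the asymptotic behaviour of `c_d(k)` for `d = 2` and `d = 3`.
-/

namespace Pool.Agent.Results.MP_4043ba_gt.PlankDimensionLimit

open Filter Topology Pool.Agent.Helper934.PlankDefs Pool.Agent.Helper934.PlankMain
  Pool.Agent.Helper934.PlankExtremal

/-- `c_2(k) / k → 2 / 3` and `c_3(k) / k → 1 / √3`, with `(2/3) k ≤ c_2(k) ≤ (2/3) k + C` and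
`k / √3 ≤ c_3(k) ≤ k / √3 + C` for all `k ≥ 1`. -/
theorem result :
    ((∃ C : ℝ, ∀ k : ℕ, 1 ≤ k →
        2 / 3 * (k : ℝ) ≤ coverConstDim 2 k ∧ coverConstDim 2 k ≤ 2 / 3 * (k : ℝ) + C) ∧
      Tendsto (fun k : ℕ => coverConstDim 2 k / k) atTop (𝓝 (2 / 3))) ∧
    ((∃ C : ℝ, ∀ k : ℕ, 1 ≤ k →
        1 / Real.sqrt 3 * (k : ℝ) ≤ coverConstDim 3 k ∧
          coverConstDim 3 k ≤ 1 / Real.sqrt 3 * (k : ℝ) + C) ∧
      Tendsto (fun k : ℕ => coverConstDim 3 k / k) atTop (𝓝 (1 / Real.sqrt 3))) := by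
  obtain ⟨C2, hC2⟩ := dim2_upper
  obtain ⟨C3, hC3⟩ := dim3_upper
  exact ⟨⟨⟨C2, fun k hk => ⟨dim2_ge k, hC2 k hk⟩⟩,
      tendsto_of_bounds _ _ C2 (fun k _ => dim2_ge k) hC2⟩,
    ⟨⟨C3, fun k hk => ⟨dim3_ge k, hC3 k hk⟩⟩,
      tendsto_of_bounds _ _ C3 (fun k _ => dim3_ge k) hC3⟩⟩

end Pool.Agent.Results.MP_4043ba_gt.PlankDimensionLimit
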