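import Mathlib
import Pool.Agent.Helper934.PlankDefs
import Pool.Agent.Helper934.PlankMain

/-!
Multiple plank coverings: the exact value of `c_K(k)` for centrally symmetric bodies.
-/

namespace Pool.Agent.Results.MP_4043ba_gt.PlankSymmetricExact

open Pool.Agent.Helper934.PlankDefs Pool.Agent.Helper934.PlankMain

/-- If `K` is a convex body in dimension two or three which is symmetric about a point `p`
(for instance a disc or a ball), then `c_K(k) = k` for every `k`. -/
theorem result (d : ℕ) (hd : d = 2 ∨ d = 3) (K : Set (EuclideanSpace ℝ (Fin d)))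
    (hK : IsConvexBody K) (p : EuclideanSpace ℝ (Fin d)) (hp : ∀ x ∈ K, (2 : ℝ) • p - x ∈ K)
    (k : ℕ) : coverConst K k = k := by
  have hd1 : 1 ≤ d := by omega
  have hw := minWidth_pos hd1 hK
  apply le_antisymm (coverConst_le_self hd1 hK k)
  have h := coverConst_ge hd hK k
  rw [← symm_width hd1 hK p hp, div_self hw.ne', one_mul] at h
  exact h

end Pool.Agent.Results.MP_4043ba_gt.PlankSymmetricExact
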